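import Pool.Agent.Helper82.FU.Slab

/-!
# The lower bound for the sections (project MP_a2630c_FU, row LOW)
-/

open MeasureTheory Set Metric Filter Topology Real
open scoped RealInnerProductSpace ENNReal Pointwise

namespace Pool.Agent.Helper82.FU

variable {V : Type*} [NormedAddCommGroup V] [InnerProductSpace ℝ V] [FiniteDimensional ℝ V]
  [MeasurableSpace V] [BorelSpace V]

section

variable {D : Set V} {F : V → ℝ}

omit [FiniteDimensional ℝ V] [MeasurableSpace V] [BorelSpace V] in
theorem rho_cont (hFc : ContinuousOn F D) (hFp : ∀ y ∈ D, 0 < F y) (v : V) (τ : ℝ) :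
    ContinuousOn (fun y => arccos ((τ - inner ℝ v y) / √(F y)) / π) D := by
  refine ContinuousOn.div_const (Real.continuous_arccos.comp_continuousOn ?_) π
  refine ContinuousOn.div (by fun_prop) (Real.continuous_sqrt.comp_continuousOn hFc) ?_
  intro y hy
  exact (Real.sqrt_pos.2 (hFp y hy)).ne'

theorem rho_int (hDo : IsOpen D) (hDb : Bornology.IsBounded D) (hFc : ContinuousOn F D)
    (hFp : ∀ y ∈ D, 0 < F y) (v : V) (τ : ℝ) :
    IntegrableOn (fun y => arccos ((τ - inner ℝ v y) / √(F y)) / π) D := by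
  have : IsFiniteMeasure (volume.restrict D) :=
    ⟨by rw [Measure.restrict_apply_univ]; exact hDb.measure_lt_top⟩
  refine Integrable.of_bound
    ((rho_cont hFc hFp v τ).aestronglyMeasurable hDo.measurableSet) 1 ?_
  refine Eventually.of_forall fun y => ?_
  rw [Real.norm_eq_abs, abs_of_nonneg (div_nonneg (arccos_nonneg _) pi_pos.le),
    div_le_one pi_pos]
  exact arccos_le_pi _

/-- A point of `Q1` at which the hyperplane is inside the body. -/
theorem exists_pt (hDo : IsOpen D) (hDb : Bornology.IsBounded D) (hFc : ContinuousOn F D)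
    (hFp : ∀ y ∈ D, 0 < F y) {d m η : ℝ} {Q1 : Set V} (hQc : IsPreconnected Q1) (hQD : Q1 ⊆ D)
    (hQm : MeasurableSet Q1)
    (hm1 : m ≤ d) (hm2 : m ≤ volume.real D - d) (hη0 : 0 ≤ 1 - η)
    (hη : arccos (1 - η) / π * volume.real D < m / 2) (hv1 : volume.real (D \ Q1) < m / 2)
    {v : V} {τ : ℝ} (hl : ∫ y in D, arccos ((τ - inner ℝ v y) / √(F y)) / π = d) :
    ∃ y ∈ Q1, |τ - inner ℝ v y| ≤ (1 - η) * √(F y) := by
  by_contra hcon
  push Not at hcon
  have hDfin : volume D ≠ ⊤ := hDb.measure_lt_top.ne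
  have hdm : MeasurableSet (D \ Q1) := hDo.measurableSet.diff hQm
  -- an integral bound
  have hbound : ∀ g : V → ℝ, IntegrableOn g D → (∀ y ∈ D, g y ≤ 1) →
      (∀ y ∈ Q1, g y ≤ arccos (1 - η) / π) → ∫ y in D, g y < m := by
    intro g hg hg1 hg2
    have hi2 : IntegrableOn (fun y => (D \ Q1).indicator (fun _ => (1 : ℝ)) y +
        arccos (1 - η) / π) D := by
      refine Integrable.add ?_ (integrableOn_const hDfin)
      exact (integrableOn_const (C := (1 : ℝ)) hDfin).indicator hdm
    have h1 : ∫ y in D, g y ≤ ∫ y in D, ((D \ Q1).indicator (fun _ => (1 : ℝ)) y +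
        arccos (1 - η) / π) := by
      refine setIntegral_mono_on hg hi2 hDo.measurableSet ?_
      intro y hy
      by_cases hyQ : y ∈ Q1
      · have hyn : y ∉ D \ Q1 := fun h => h.2 hyQ
        rw [indicator_of_notMem hyn, zero_add]
        exact hg2 y hyQ
      · have hyn : y ∈ D \ Q1 := ⟨hy, hyQ⟩
        rw [indicator_of_mem hyn]
        have := hg1 y hy
        have h2 : 0 ≤ arccos (1 - η) / π := div_nonneg (arccos_nonneg _) pi_pos.le
        linarith
    have h2 : ∫ y in D, ((D \ Q1).indicator (fun _ => (1 : ℝ)) y + arccos (1 - η) / π) =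
        volume.real (D \ Q1) + arccos (1 - η) / π * volume.real D := by
      rw [integral_add ((integrableOn_const (C := (1 : ℝ)) hDfin).indicator hdm)
        (integrableOn_const hDfin), setIntegral_indicator hdm, setIntegral_const,
        setIntegral_const, smul_eq_mul, smul_eq_mul, mul_one, mul_comm (volume.real D)]
      congr 2
      exact inter_eq_right.2 sdiff_subset
    linarith
  have hcont : ContinuousOn (fun y => τ - (inner ℝ v y : ℝ)) Q1 := by fun_prop
  have hsq : ∀ y ∈ Q1, 0 < √(F y) := fun y hy => Real.sqrt_pos.2 (hFp y (hQD hy))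
  have hne0 : ∀ y ∈ Q1, τ - (inner ℝ v y : ℝ) ≠ 0 := by
    intro y hy h0
    have h1 := hcon y hy
    rw [h0, abs_zero] at h1
    have := mul_nonneg hη0 (hsq y hy).le
    linarith
  have hsign : (∀ y ∈ Q1, 0 < τ - (inner ℝ v y : ℝ)) ∨ (∀ y ∈ Q1, τ - (inner ℝ v y : ℝ) < 0) := by
    by_contra h
    push Not at h
    obtain ⟨⟨a, ha, ha'⟩, b, hb, hb'⟩ := h
    obtain ⟨z, hz, hz0⟩ := hQc.intermediate_value ha hb hcont ⟨ha', hb'⟩
    exact hne0 z hz hz0
  have hri := rho_int hDo hDb hFc hFp v τ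
  have hi1 : Integrable (fun _ : V => (1 : ℝ)) (volume.restrict D) :=
    integrableOn_const hDfin
  rcases hsign with h | h
  · have h1 := hbound _ hri (fun y _ => (div_le_one pi_pos).2 (arccos_le_pi _)) (by
      intro y hy
      apply div_le_div_of_nonneg_right _ pi_pos.le
      apply antitone_arccos
      rw [le_div_iff₀ (hsq y hy)]
      have := hcon y hy
      rw [abs_of_pos (h y hy)] at this
      exact this.le)
    rw [hl] at h1
    linarith
  · have h1 := hbound (fun y => 1 - arccos ((τ - inner ℝ v y) / √(F y)) / π)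
      (Integrable.sub hi1 hri)
      (fun y _ => by
        have : 0 ≤ arccos ((τ - inner ℝ v y) / √(F y)) / π := div_nonneg (arccos_nonneg _) pi_pos.le
        linarith) (by
      intro y hy
      have h2 : (τ - inner ℝ v y) / √(F y) ≤ -(1 - η) := by
        rw [div_le_iff₀ (hsq y hy)]
        have := hcon y hy
        rw [abs_of_neg (h y hy)] at this
        linarith
      have h3 := antitone_arccos h2
      rw [arccos_neg] at h3
      have h4 : (π - arccos (1 - η)) / π ≤ arccos ((τ - inner ℝ v y) / √(F y)) / π :=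
        div_le_div_of_nonneg_right h3 pi_pos.le
      rw [sub_div, div_self pi_pos.ne'] at h4
      linarith)
    rw [integral_sub hi1 hri, setIntegral_const, smul_eq_mul, mul_one,
      hl] at h1
    linarith

omit [FiniteDimensional ℝ V] [MeasurableSpace V] [BorelSpace V] in
theorem sq_cont (hFc : ContinuousOn F D) (v : V) (τ : ℝ) :
    ContinuousOn (fun y => √(F y - (τ - inner ℝ v y) ^ 2)) D := by
  refine Real.continuous_sqrt.comp_continuousOn (hFc.sub ?_)
  fun_prop

theorem sq_int (hDo : IsOpen D) (hDb : Bornology.IsBounded D) (hFc : ContinuousOn F D)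
    {M : ℝ} (hM : 0 ≤ M) (hFM : ∀ y ∈ D, F y ≤ M ^ 2) (v : V) (τ : ℝ) :
    IntegrableOn (fun y => √(F y - (τ - inner ℝ v y) ^ 2)) D := by
  have : IsFiniteMeasure (volume.restrict D) :=
    ⟨by rw [Measure.restrict_apply_univ]; exact hDb.measure_lt_top⟩
  refine Integrable.of_bound
    ((sq_cont hFc v τ).aestronglyMeasurable hDo.measurableSet) M ?_
  refine (ae_restrict_iff' hDo.measurableSet).2 (Eventually.of_forall fun y hy => ?_)
  rw [Real.norm_eq_abs, abs_of_nonneg (Real.sqrt_nonneg _)]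
  refine Real.sqrt_le_iff.2 ⟨hM, ?_⟩
  have := hFM y hy
  nlinarith [sq_nonneg (τ - inner ℝ v y : ℝ)]

omit [MeasurableSpace V] [BorelSpace V] in
/-- A compact subset of an open convex set is contained in a compact convex subset. -/
theorem exists_convex_compact (hDo : IsOpen D) (hDc : Convex ℝ D) (hDb : Bornology.IsBounded D)
    (hne : D.Nonempty) {Q0 : Set V} (hQ : IsCompact Q0) (hQD : Q0 ⊆ D) :
    ∃ Q1 : Set V, IsCompact Q1 ∧ Convex ℝ Q1 ∧ Q0 ⊆ Q1 ∧ Q1 ⊆ D := by
  obtain ⟨x0, hx0⟩ := hne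
  obtain ⟨δ, hδ, hδD⟩ := hQ.exists_cthickening_subset_open hDo hQD
  obtain ⟨R, hR⟩ := hQ.isBounded.subset_closedBall x0
  set s : ℝ := 1 + δ / (|R| + 1) with hs
  have hs1 : 1 < s := by
    have : 0 < δ / (|R| + 1) := by positivity
    linarith
  have hs0 : 0 < s := by linarith
  refine ⟨(fun y => (1 - s⁻¹) • x0 + s⁻¹ • y) '' closure D, ?_, ?_, ?_, ?_⟩
  · exact hDb.isCompact_closure.image (by fun_prop)
  · have h1 : Convex ℝ (closure D) := hDc.closure
    have h2 := (h1.smul s⁻¹).translate ((1 - s⁻¹) • x0)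
    have h3 : (fun y => (1 - s⁻¹) • x0 + s⁻¹ • y) '' closure D =
        (fun z => (1 - s⁻¹) • x0 + z) '' (s⁻¹ • closure D) := by
      rw [← image_smul, image_image]
    rw [h3]
    exact h2
  · intro x hx
    refine ⟨x0 + s • (x - x0), subset_closure (hδD ?_), ?_⟩
    · apply mem_cthickening_of_dist_le _ x δ Q0 hx
      have h1 : ‖x - x0‖ ≤ |R| := by
        have := hR hx
        rw [mem_closedBall_iff_norm] at this
        exact this.trans (le_abs_self R)
      have h2 : x0 + s • (x - x0) - x = (s - 1) • (x - x0) := by module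
      rw [dist_eq_norm, h2, norm_smul, Real.norm_eq_abs, abs_of_pos (by linarith), hs,
        add_sub_cancel_left, div_mul_eq_mul_div, div_le_iff₀ (by positivity)]
      have := norm_nonneg (x - x0)
      nlinarith
    · show (1 - s⁻¹) • x0 + s⁻¹ • (x0 + s • (x - x0)) = x
      rw [smul_add, smul_smul, inv_mul_cancel₀ hs0.ne']
      module
  · rintro _ ⟨y, hy, rfl⟩
    have h1 : s⁻¹ < 1 := inv_lt_one_of_one_lt₀ hs1
    have h2 := hDc.combo_interior_closure_mem_interior (x := x0) (y := y)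
      (by rw [hDo.interior_eq]; exact hx0) hy (a := 1 - s⁻¹) (b := s⁻¹) (by linarith)
      (by positivity) (by ring)
    rwa [hDo.interior_eq] at h2

/-- (LOW) A fixed proportion of the sections lies in a fixed compact set. -/
theorem low (hDo : IsOpen D) (hDc : Convex ℝ D) (hDb : Bornology.IsBounded D)
    (hFc : ContinuousOn F D) (hFp : ∀ y ∈ D, 0 < F y) {M : ℝ} (hM : 0 ≤ M)
    (hFM : ∀ y ∈ D, F y ≤ M ^ 2) {d : ℝ} (hd0 : 0 < d) (hd1 : d < volume.real D) :
    ∃ (Q : Set V) (θ : ℝ), IsCompact Q ∧ Q ⊆ D ∧ 0 < θ ∧ ∀ (v : V) (τ : ℝ),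
      ∫ y in D, arccos ((τ - inner ℝ v y) / √(F y)) / π = d →
      0 < ∫ y in Q, √(F y - (τ - inner ℝ v y) ^ 2) ∧
      θ * ∫ y in D, √(F y - (τ - inner ℝ v y) ^ 2) ≤
        ∫ y in Q, √(F y - (τ - inner ℝ v y) ^ 2) := by
  have hDfin : volume D ≠ ⊤ := hDb.measure_lt_top.ne
  set m := min d (volume.real D - d) with hm
  have hm0 : 0 < m := lt_min hd0 (by linarith)
  -- the compact convex set
  obtain ⟨Q0, hQ0D, hQ0c, hQ0v⟩ := hDo.measurableSet.exists_isCompact_sdiff_lt hDfin
    (ε := ENNReal.ofReal (m / 2)) (by simpa using hm0)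
  have hDne : D.Nonempty := by
    rw [nonempty_iff_ne_empty]
    intro h0
    rw [h0, measureReal_empty] at hd1
    linarith
  obtain ⟨Q1, hQ1c, hQ1conv, hQ01, hQ1D⟩ := exists_convex_compact hDo hDc hDb hDne hQ0c hQ0D
  have hQ1v : volume.real (D \ Q1) < m / 2 := by
    rw [measureReal_def, ← ENNReal.toReal_ofReal (by positivity : (0 : ℝ) ≤ m / 2)]
    rw [ENNReal.toReal_lt_toReal (measure_ne_top_of_subset sdiff_subset hDfin) ENNReal.ofReal_ne_top]
    exact (measure_mono (sdiff_subset_sdiff_right hQ01)).trans_lt hQ0v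
  -- the margin
  obtain ⟨η, hη0, hη1, hη⟩ : ∃ η : ℝ, 0 < η ∧ η < 1 ∧
      arccos (1 - η) / π * volume.real D < m / 2 := by
    have hc : ContinuousAt (fun η : ℝ => arccos (1 - η) / π * volume.real D) 0 := by
      have : Continuous (fun η : ℝ => arccos (1 - η) / π * volume.real D) := by
        refine Continuous.mul (Continuous.div_const ?_ π) continuous_const
        exact Real.continuous_arccos.comp (by fun_prop)
      exact this.continuousAt
    have h0 : (fun η : ℝ => arccos (1 - η) / π * volume.real D) 0 < m / 2 := by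
      simp only [sub_zero, arccos_one, zero_div, zero_mul]
      positivity
    have h1 := hc.tendsto.eventually (gt_mem_nhds h0)
    have h2 : ∀ᶠ η : ℝ in 𝓝[>] 0, arccos (1 - η) / π * volume.real D < m / 2 :=
      h1.filter_mono nhdsWithin_le_nhds
    obtain ⟨η, ⟨h3, h4⟩⟩ := (h2.and (Ioo_mem_nhdsGT (one_pos : (0 : ℝ) < 1))).exists
    exact ⟨η, h4.1, h4.2, h3⟩
  -- the thickening
  obtain ⟨ρ0, hρ0, hρD⟩ := hQ1c.exists_cthickening_subset_open hDo hQ1D
  set Q := cthickening ρ0 Q1 with hQ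
  have hQc : IsCompact Q := hQ1c.cthickening
  have hQ1Q : Q1 ⊆ Q := self_subset_cthickening Q1
  have hsc : ContinuousOn (fun y => √(F y)) Q :=
    (Real.continuous_sqrt.comp_continuousOn hFc).mono hρD
  have hQ1ne : Q1.Nonempty := by
    rw [nonempty_iff_ne_empty]
    intro h0
    rw [h0, sdiff_empty] at hQ1v
    have : m ≤ volume.real D - d := min_le_right _ _
    linarith
  obtain ⟨ym, hym, hmin⟩ := hQc.exists_isMinOn (hQ1ne.mono hQ1Q) hsc
  set f0 := √(F ym) with hf0
  have hf0p : 0 < f0 := Real.sqrt_pos.2 (hFp ym (hρD hym))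
  have hf0le : ∀ y ∈ Q, f0 ≤ √(F y) := fun y hy => hmin hy
  obtain ⟨r1, hr1, hr1u⟩ := Metric.uniformContinuousOn_iff.1
    (hQc.uniformContinuousOn_of_continuous hsc) (η * f0 / 4) (by positivity)
  set r0 := min ρ0 r1 with hr0
  have hr0p : 0 < r0 := lt_min hρ0 hr1
  set β := η * f0 / 4 with hβ
  have hβp : 0 < β := by positivity
  set b := volume.real (ball (0 : V) (r0 / 2)) with hb
  have hbp : 0 < b := by
    rw [hb, measureReal_def]
    exact ENNReal.toReal_pos (measure_ball_pos volume _ (by positivity)).ne'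
      measure_ball_lt_top.ne
  set c1 := f0 * √(η / 2) with hc1
  have hc1p : 0 < c1 := mul_pos hf0p (Real.sqrt_pos.2 (by positivity))
  -- bounds for the body
  obtain ⟨D0, hD0⟩ := hDb.subset_closedBall (0 : V)
  set D1 := max D0 1 with hD1
  have hD1p : 0 < D1 := lt_max_of_lt_right one_pos
  have hD1s : D ⊆ closedBall 0 D1 := hD0.trans (closedBall_subset_closedBall (le_max_left _ _))
  set B := volume.real (closedBall (0 : V) (2 * D1)) with hB
  have hBp : 0 ≤ B := measureReal_nonneg
  set C := r0 * (M * (M * B / D1)) + 2 * β * (M * volume.real D) + 1 with hC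
  have hCp : 0 < C := by
    have h1 : 0 ≤ volume.real D := measureReal_nonneg
    positivity
  refine ⟨Q, 2 * c1 * β * b / C, hQc, hρD, by positivity, ?_⟩
  intro v τ hl
  obtain ⟨yv, hyv, hyvle⟩ := exists_pt hDo hDb hFc hFp hQ1conv.isPreconnected
    hQ1D hQ1c.isClosed.measurableSet (min_le_left _ _) (min_le_right _ _) (by linarith) hη hQ1v hl
  have hi := sq_int hDo hDb hFc hM hFM v τ
  have hiQ : IntegrableOn (fun y => √(F y - (τ - inner ℝ v y) ^ 2)) Q := hi.mono_set hρD
  set S : Set V := ball yv r0 ∩ {x | |inner ℝ v (x - yv)| ≤ β} with hS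
  have hSm : MeasurableSet S :=
    measurableSet_ball.inter (isClosed_le (by fun_prop) continuous_const).measurableSet
  have hSQ : S ⊆ Q := by
    intro x hx
    apply mem_cthickening_of_dist_le x yv ρ0 Q1 hyv
    have := hx.1
    rw [mem_ball] at this
    exact this.le.trans (min_le_left _ _)
  -- lower bound on the slab
  have hlow : ∀ x ∈ S, c1 ≤ √(F x - (τ - inner ℝ v x) ^ 2) := by
    intro x hx
    have hxQ := hSQ hx
    have h1 : dist (√(F x)) (√(F yv)) < η * f0 / 4 := by
      apply hr1u x hxQ yv (hQ1Q hyv)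
      have := hx.1
      rw [mem_ball] at this
      exact this.trans_le (min_le_right _ _)
    rw [Real.dist_eq, abs_lt] at h1
    have h2 : |(inner ℝ v (x - yv) : ℝ)| ≤ β := hx.2
    have h3 : |τ - inner ℝ v x| ≤ (1 - η / 2) * √(F x) := by
      have e1 : τ - (inner ℝ v x : ℝ) = (τ - inner ℝ v yv) - inner ℝ v (x - yv) := by
        rw [inner_sub_right]; ring
      rw [e1]
      have e2 := abs_sub (τ - inner ℝ v yv : ℝ) (inner ℝ v (x - yv))
      have e3 : f0 ≤ √(F x) := hf0le x hxQ
      have e4 : (1 - η) * √(F yv) ≤ (1 - η) * (√(F x) + η * f0 / 4) := by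
        apply mul_le_mul_of_nonneg_left _ (by linarith)
        linarith [h1.1]
      have e5 : (1 - η) * (η * f0 / 4) ≤ η * f0 / 4 := by
        have : 0 ≤ η * f0 / 4 := by positivity
        nlinarith
      have e6 : η / 2 * f0 ≤ η / 2 * √(F x) := mul_le_mul_of_nonneg_left e3 (by positivity)
      nlinarith
    have h4 : (τ - inner ℝ v x) ^ 2 ≤ (1 - η / 2) ^ 2 * F x := by
      have e1 : (τ - (inner ℝ v x : ℝ)) ^ 2 = |τ - inner ℝ v x| ^ 2 := (sq_abs _).symm
      rw [e1]
      have e2 : |τ - inner ℝ v x| ^ 2 ≤ ((1 - η / 2) * √(F x)) ^ 2 :=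
        pow_le_pow_left₀ (abs_nonneg _) h3 2
      rw [mul_pow, Real.sq_sqrt (hFp x (hρD hxQ)).le] at e2
      exact e2
    rw [hc1, ← Real.sqrt_sq hf0p.le, ← Real.sqrt_mul (sq_nonneg f0)]
    apply Real.sqrt_le_sqrt
    have h5 : f0 ^ 2 ≤ F x := by
      have := pow_le_pow_left₀ hf0p.le (hf0le x hxQ) 2
      rwa [Real.sq_sqrt (hFp x (hρD hxQ)).le] at this
    have h6 : η / 2 ≤ 1 - (1 - η / 2) ^ 2 := by nlinarith
    have h7 : 0 ≤ 1 - (1 - η / 2) ^ 2 := by linarith [hη0]
    calc f0 ^ 2 * (η / 2) ≤ F x * (1 - (1 - η / 2) ^ 2) :=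
          mul_le_mul h5 h6 (by positivity) (hFp x (hρD hxQ)).le
      _ ≤ F x - (τ - inner ℝ v x) ^ 2 := by linarith
  have hSfin : volume S ≠ ⊤ := measure_ne_top_of_subset inter_subset_left measure_ball_lt_top.ne
  have hvS : 2 * β * b ≤ (‖v‖ * r0 + 2 * β) * volume.real S := by
    have h1 := slab_ball_lower v yv hr0p hβp
    have h2 := ENNReal.toReal_mono (ENNReal.mul_ne_top ENNReal.ofReal_ne_top hSfin) h1
    rw [ENNReal.toReal_mul, ENNReal.toReal_mul, ENNReal.toReal_ofReal (by positivity),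
      ENNReal.toReal_ofReal (by positivity)] at h2
    exact h2
  have hQlow : c1 * volume.real S ≤ ∫ y in Q, √(F y - (τ - inner ℝ v y) ^ 2) := by
    calc c1 * volume.real S = ∫ _ in S, c1 := by
          rw [setIntegral_const, smul_eq_mul, mul_comm]
      _ ≤ ∫ y in S, √(F y - (τ - inner ℝ v y) ^ 2) :=
          setIntegral_mono_on (integrableOn_const hSfin) (hiQ.mono_set hSQ) hSm hlow
      _ ≤ ∫ y in Q, √(F y - (τ - inner ℝ v y) ^ 2) :=
          setIntegral_mono_set hiQ (Eventually.of_forall fun y => Real.sqrt_nonneg _)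
            (LE.le.eventuallyLE hSQ)
  have hpos : 0 < ‖v‖ * r0 + 2 * β := by positivity
  have hvS' : 2 * β * b / (‖v‖ * r0 + 2 * β) ≤ volume.real S := by
    rw [div_le_iff₀ hpos]
    linarith
  -- upper bound
  have hup : ∫ y in D, √(F y - (τ - inner ℝ v y) ^ 2) ≤ M * volume.real (D ∩ Sl v τ M) := by
    have hm1 : MeasurableSet (D ∩ Sl v τ M) :=
      hDo.measurableSet.inter (Sl_closed v τ M).measurableSet
    calc ∫ y in D, √(F y - (τ - inner ℝ v y) ^ 2) ≤
        ∫ y in D, (D ∩ Sl v τ M).indicator (fun _ => M) y := by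
          refine setIntegral_mono_on hi ((integrableOn_const hDfin).indicator hm1)
            hDo.measurableSet ?_
          intro y hy
          by_cases hys : y ∈ Sl v τ M
          · have hyn : y ∈ D ∩ Sl v τ M := ⟨hy, hys⟩
            rw [indicator_of_mem hyn]
            refine Real.sqrt_le_iff.2 ⟨hM, ?_⟩
            have := hFM y hy
            nlinarith [sq_nonneg (τ - inner ℝ v y : ℝ)]
          · have hyn : y ∉ D ∩ Sl v τ M := fun h => hys h.2
            rw [indicator_of_notMem hyn]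
            apply le_of_eq
            apply Real.sqrt_eq_zero_of_nonpos
            have h1 : M < |(inner ℝ v y : ℝ) - τ| := not_le.1 hys
            rw [abs_sub_comm] at h1
            have h2 : M ^ 2 ≤ (τ - inner ℝ v y) ^ 2 := by
              rw [← sq_abs (τ - inner ℝ v y : ℝ)]
              exact pow_le_pow_left₀ hM h1.le 2
            have := hFM y hy
            linarith
      _ = M * volume.real (D ∩ Sl v τ M) := by
          rw [setIntegral_indicator hm1, setIntegral_const, smul_eq_mul, mul_comm]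
          congr 2
          exact inter_eq_right.2 inter_subset_left
  have hDSfin : volume (D ∩ Sl v τ M) ≠ ⊤ := measure_ne_top_of_subset inter_subset_left hDfin
  have hsl1 : volume.real (D ∩ Sl v τ M) ≤ volume.real D :=
    measureReal_mono inter_subset_left hDfin
  have hsl2 : ‖v‖ * volume.real (D ∩ Sl v τ M) ≤ M * B / D1 := by
    have h1 := slab_upper v τ hD1s hD1p hM
    have h2 := ENNReal.toReal_mono (ENNReal.mul_ne_top ENNReal.ofReal_ne_top
      measure_closedBall_lt_top.ne) h1
    rw [ENNReal.toReal_mul, ENNReal.toReal_mul, ENNReal.toReal_ofReal (by positivity),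
      ENNReal.toReal_ofReal (by positivity)] at h2
    rw [le_div_iff₀ hD1p]
    have h3 : 2 * D1 * ‖v‖ * volume.real (D ∩ Sl v τ M) ≤ 2 * M * B := h2
    linarith
  have hU : (‖v‖ * r0 + 2 * β) * ∫ y in D, √(F y - (τ - inner ℝ v y) ^ 2) ≤ C := by
    have h1 : (‖v‖ * r0 + 2 * β) * ∫ y in D, √(F y - (τ - inner ℝ v y) ^ 2) ≤
        (‖v‖ * r0 + 2 * β) * (M * volume.real (D ∩ Sl v τ M)) :=
      mul_le_mul_of_nonneg_left hup hpos.le
    have h2 : r0 * (M * (‖v‖ * volume.real (D ∩ Sl v τ M))) ≤ r0 * (M * (M * B / D1)) :=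
      mul_le_mul_of_nonneg_left (mul_le_mul_of_nonneg_left hsl2 hM) hr0p.le
    have h3 : 2 * β * (M * volume.real (D ∩ Sl v τ M)) ≤ 2 * β * (M * volume.real D) :=
      mul_le_mul_of_nonneg_left (mul_le_mul_of_nonneg_left hsl1 hM) (by positivity)
    have h4 : (‖v‖ * r0 + 2 * β) * (M * volume.real (D ∩ Sl v τ M)) =
        r0 * (M * (‖v‖ * volume.real (D ∩ Sl v τ M))) +
          2 * β * (M * volume.real (D ∩ Sl v τ M)) := by ring
    rw [hC]
    linarith
  have hfin : c1 * (2 * β * b / (‖v‖ * r0 + 2 * β)) ≤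
      ∫ y in Q, √(F y - (τ - inner ℝ v y) ^ 2) :=
    (mul_le_mul_of_nonneg_left hvS' hc1p.le).trans hQlow
  constructor
  · refine lt_of_lt_of_le ?_ hfin
    positivity
  · refine le_trans ?_ hfin
    have h1 : ∫ y in D, √(F y - (τ - inner ℝ v y) ^ 2) ≤ C / (‖v‖ * r0 + 2 * β) := by
      rw [le_div_iff₀ hpos]
      linarith
    calc 2 * c1 * β * b / C * ∫ y in D, √(F y - (τ - inner ℝ v y) ^ 2) ≤
        2 * c1 * β * b / C * (C / (‖v‖ * r0 + 2 * β)) :=
          mul_le_mul_of_nonneg_left h1 (by positivity)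
      _ = c1 * (2 * β * b / (‖v‖ * r0 + 2 * β)) := by
          field_simp

end

end Pool.Agent.Helper82.FU
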