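import Pool.Agent.Helper73.FU.Stmts
import Pool.Agent.Helper82.FU.Low

/-!
# The mass of the sections in a compact set (project MP_a2630c_FU, row LB)
-/

open MeasureTheory Set Metric Real Filter Topology
open scoped RealInnerProductSpace ENNReal
open Pool.Agent.Helper16.Buoy (E cap IsEllipsoid Homothetic buoyancyBody)
open Pool.Agent.Helper73.HV (supp)
open Pool.Agent.Helper73.LR (CB vol GG Sol aff)
open Pool.Agent.Helper73.SY (CS)

namespace Pool.Agent.Helper82.FU

open Pool.Agent.Helper73.FU

variable {n : ℕ} {K : Set (E n)}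

/-- The interior has full measure. -/
theorem int_ae (hK : CB K) : interior K =ᵐ[volume] K := by
  have h1 : volume (frontier K) = 0 := hK.conv.addHaar_frontier volume
  have h2 : K \ interior K ⊆ frontier K := by
    intro x hx
    exact ⟨subset_closure hx.1, hx.2⟩
  exact (ae_eq_set.2 ⟨by
    rw [sdiff_eq_empty.2 interior_subset, measure_empty], measure_mono_null h2 h1⟩)

theorem int_integral (hK : CB K) (f : E n → ℝ) : ∫ y in K, f y = ∫ y in interior K, f y :=
  (setIntegral_congr_set (int_ae hK)).symm

theorem af_cont {F : E n → ℝ} (hF : AF K F) : ContinuousOn F (interior K) := by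
  have h1 : ContinuousOn (fun y => F y + ‖y‖ ^ 2) (interior K) :=
    hF.conc.continuousOn isOpen_interior
  have h2 : ContinuousOn (fun y => (F y + ‖y‖ ^ 2) - ‖y‖ ^ 2) (interior K) :=
    h1.sub (by fun_prop)
  simpa using h2

/-- (LB) The mass of the sections in a compact set. -/
theorem s_lb : S_lb := by
  intro n K δ lam F τ hK hF hL
  obtain ⟨C, hC⟩ := hF.bdd
  have hvol : volume.real (interior K) = vol K := by
    rw [measureReal_def, vol, measure_congr (int_ae hK.cb)]
  obtain ⟨Q, θ, hQ, hQK, hθ, hmain⟩ := low (D := interior K) (F := F) isOpen_interior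
    hK.cb.conv.interior (hK.cb.comp.isBounded.subset interior_subset) (af_cont hF) hF.pos
    (M := √(max C 0)) (Real.sqrt_nonneg _)
    (fun y hy => by
      rw [Real.sq_sqrt (le_max_right _ _)]
      exact (hC y hy).trans (le_max_left _ _)) hK.dpos (d := δ) (by rw [hvol]; exact hK.dlt)
  refine ⟨Q, θ, hQ, hQK, hθ, fun v => ?_⟩
  have h1 := hL.lev v
  rw [int_integral hK.cb] at h1
  have h2 := (hmain v (τ v) h1).2
  rw [int_integral hK.cb]
  exact h2

end Pool.Agent.Helper82.FU
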