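import Pool.Agent.Helper79.MI.Sec
import Pool.Agent.Helper82.MI.Pos

/-!
# Inner and outer tangent balls of a centred solution (project MP_a2630c_FU, row BC)
-/

open MeasureTheory Set Metric Real Filter Topology
open scoped RealInnerProductSpace ENNReal
open Pool.Agent.Helper16.Buoy (E cap IsEllipsoid Homothetic buoyancyBody)
open Pool.Agent.Helper73.HV (supp)
open Pool.Agent.Helper73.LR (CB vol GG Sol aff)
open Pool.Agent.Helper73.SY (CS Dat sg)
open Pool.Agent.Helper65.LR (le_supp supp_greatest mem_of_supp supp_smul)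

namespace Pool.Agent.Helper82.FU

open Pool.Agent.Helper73.MI

/-- Comparison for `g'' + g = ρ` with `ρ` at least `c`. -/
theorem arc_mono {g G ρ : ℝ → ℝ} {c θ : ℝ} (hg : ∀ s, HasDerivAt g (G s) s)
    (hG : ∀ s, HasDerivAt G (ρ s - g s) s) (h0 : 0 ≤ θ) (h1 : θ ≤ π)
    (hc : ∀ s, c ≤ ρ s) : sin θ * G 0 + cos θ * (g 0 - c) ≤ g θ - c := by
  have hd : ∀ s, HasDerivAt (fun s => sin (θ - s) * G s + cos (θ - s) * (g s - c))
      (sin (θ - s) * (ρ s - c)) s := by
    intro s
    have e1 : HasDerivAt (fun s : ℝ => θ - s) (-1) s := by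
      simpa using (hasDerivAt_id s).const_sub θ
    have e2 : HasDerivAt (fun s : ℝ => sin (θ - s)) (cos (θ - s) * (-1)) s :=
      (Real.hasDerivAt_sin (θ - s)).comp s e1
    have e3 : HasDerivAt (fun s : ℝ => cos (θ - s)) (-sin (θ - s) * (-1)) s :=
      (Real.hasDerivAt_cos (θ - s)).comp s e1
    have e4 := (e2.mul (hG s)).add (e3.mul ((hg s).sub_const c))
    refine e4.congr_deriv ?_
    ring
  have hm : MonotoneOn (fun s => sin (θ - s) * G s + cos (θ - s) * (g s - c)) (Icc 0 θ) := by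
    refine monotoneOn_of_hasDerivWithinAt_nonneg (convex_Icc 0 θ)
      (fun s _ => (hd s).continuousAt.continuousWithinAt)
      (fun s _ => (hd s).hasDerivWithinAt) ?_
    intro s hs
    rw [interior_Icc] at hs
    refine mul_nonneg (sin_nonneg_of_nonneg_of_le_pi ?_ ?_) (sub_nonneg.2 (hc s))
    · linarith [hs.2]
    · linarith [hs.1]
  have h2 := hm (left_mem_Icc.2 h0) (right_mem_Icc.2 h0) h0
  simpa using h2

theorem sq_eq_one_iff_of_side {a : ℝ} (h : a ^ 2 = 1) : a = 1 ∨ a = -1 := by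
  rcases eq_or_ne a 1 with h1 | h1
  · exact Or.inl h1
  · right
    have : (a - 1) * (a + 1) = 0 := by linear_combination h
    rcases mul_eq_zero.1 this with h2 | h2
    · exact absurd (by linarith) h1
    · linarith

variable {n : ℕ} {K : Set (E n)} {δ lam : ℝ} {X : E n → E n} {t : E n → ℝ}

theorem datC (h : Dat K δ lam X t) : DatC K δ lam X t := by
  rcases Nat.eq_zero_or_pos n with h0 | h0
  · subst h0
    exact ⟨h, fun u hu => absurd (Subsingleton.elim u 0) hu,
      fun u hu => absurd (Subsingleton.elim u 0) hu⟩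
  · exact Pool.Agent.Helper79.MI.dtc h0 h

theorem pos_all (h : Dat K δ lam X t) :
      (∀ (u : E n) (z z' : E n), u ≠ 0 →
        inner ℝ z (fderiv ℝ X u z') = (inner ℝ z' (fderiv ℝ X u z) : ℝ)) ∧
      (∀ u z : E n, u ≠ 0 → inner ℝ u (fderiv ℝ X u z) = (0 : ℝ)) ∧
      (∀ (u z : E n) (c : ℝ), u ≠ 0 → 0 < c → fderiv ℝ X (c • u) z = c⁻¹ • fderiv ℝ X u z) ∧
      ∃ c : ℝ, 0 < c ∧ ∀ u z : E n, ‖u‖ = 1 → inner ℝ u z = (0 : ℝ) →
        c * ‖z‖ ^ 2 ≤ inner ℝ z (fderiv ℝ X u z) :=
  Pool.Agent.Helper82.MI.pos Pool.Agent.Helper79.MI.sec_main Pool.Agent.Helper79.MI.hes (datC h)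

/-- Along a great circle. -/
theorem arc (h : Dat K δ lam X t) {c C : ℝ}
    (hc : ∀ u z : E n, ‖u‖ = 1 → inner ℝ u z = (0 : ℝ) → c * ‖z‖ ^ 2 ≤ inner ℝ z (fderiv ℝ X u z))
    (hC : ∀ u z : E n, ‖u‖ = 1 → inner ℝ z (fderiv ℝ X u z) ≤ C * ‖z‖ ^ 2)
    {u e : E n} (hu : ‖u‖ = 1) (he : ‖e‖ = 1) (hue : inner ℝ u e = (0 : ℝ)) {θ : ℝ} (h0 : 0 ≤ θ)
    (h1 : θ ≤ π) :
    c * (1 - cos θ) ≤ supp K (cos θ • u + sin θ • e) - inner ℝ (cos θ • u + sin θ • e) (X u) ∧
    supp K (cos θ • u + sin θ • e) - inner ℝ (cos θ • u + sin θ • e) (X u) ≤ C * (1 - cos θ) := by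
  have hDC := datC h
  obtain ⟨-, hor, -, -⟩ := pos_all h
  set U : ℝ → E n := fun s => cos s • u + sin s • e with hU
  set U' : ℝ → E n := fun s => (-sin s) • u + cos s • e with hU'
  have huu : (inner ℝ u u : ℝ) = 1 := by rw [real_inner_self_eq_norm_sq, hu]; norm_num
  have hee : (inner ℝ e e : ℝ) = 1 := by rw [real_inner_self_eq_norm_sq, he]; norm_num
  have heu : (inner ℝ e u : ℝ) = 0 := by rw [real_inner_comm]; exact hue
  have hUd : ∀ s, HasDerivAt U (U' s) s := by
    intro s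
    exact ((Real.hasDerivAt_cos s).smul_const u).add ((Real.hasDerivAt_sin s).smul_const e)
  have hU'd : ∀ s, HasDerivAt U' (-U s) s := by
    intro s
    have e1 := (((Real.hasDerivAt_sin s).neg).smul_const u).add
      ((Real.hasDerivAt_cos s).smul_const e)
    refine e1.congr_deriv ?_
    rw [hU]
    simp only [neg_smul]
    abel
  have hUU : ∀ s, (inner ℝ (U s) (U s) : ℝ) = 1 := by
    intro s
    simp only [hU, inner_add_left, inner_add_right, inner_smul_left, inner_smul_right, huu, hee,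
      hue, heu, conj_trivial]
    have := sin_sq_add_cos_sq s
    nlinarith
  have hU'U' : ∀ s, (inner ℝ (U' s) (U' s) : ℝ) = 1 := by
    intro s
    simp only [hU', inner_add_left, inner_add_right, inner_smul_left, inner_smul_right, huu, hee,
      hue, heu, conj_trivial]
    have := sin_sq_add_cos_sq s
    nlinarith
  have hUU' : ∀ s, (inner ℝ (U s) (U' s) : ℝ) = 0 := by
    intro s
    simp only [hU, hU', inner_add_left, inner_add_right, inner_smul_left, inner_smul_right, huu,
      hee, hue, heu, conj_trivial]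
    ring
  have hUn : ∀ s, ‖U s‖ = 1 := by
    intro s
    have := hUU s
    rw [real_inner_self_eq_norm_sq] at this
    rcases sq_eq_one_iff_of_side this with h2 | h2
    · exact h2
    · linarith [norm_nonneg (U s)]
  have hU'n : ‖U' 0‖ ^ 2 = 1 := by rw [← real_inner_self_eq_norm_sq]; exact hU'U' 0
  have hU0 : ∀ s, U s ≠ 0 := by
    intro s hs
    have := hUn s
    rw [hs, norm_zero] at this
    exact zero_ne_one this
  have hXd : ∀ s, HasDerivAt (fun s => X (U s)) (fderiv ℝ X (U s) (U' s)) s := fun s =>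
    (Pool.Agent.Helper82.MI.diffAt hDC (hU0 s)).hasFDerivAt.comp_hasDerivAt s (hUd s)
  set ρ : ℝ → ℝ := fun s => inner ℝ (U' s) (fderiv ℝ X (U s) (U' s)) with hρ
  have hg : ∀ s, HasDerivAt (fun s => (inner ℝ (U s) (X (U s)) : ℝ)) (inner ℝ (U' s) (X (U s))) s := by
    intro s
    have e1 := (hUd s).inner ℝ (hXd s)
    refine e1.congr_deriv ?_
    rw [hor (U s) (U' s) (hU0 s)]
    ring
  have hG : ∀ s, HasDerivAt (fun s => (inner ℝ (U' s) (X (U s)) : ℝ))
      (ρ s - inner ℝ (U s) (X (U s))) s := by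
    intro s
    have e1 := (hU'd s).inner ℝ (hXd s)
    refine e1.congr_deriv ?_
    rw [hρ, inner_neg_left]
    ring
  have hρ1 : ∀ s, c ≤ ρ s := by
    intro s
    have := hc (U s) (U' s) (hUn s) (hUU' s)
    rw [← real_inner_self_eq_norm_sq, hU'U' s, mul_one] at this
    exact this
  have hρ2 : ∀ s, ρ s ≤ C := by
    intro s
    have := hC (U s) (U' s) (hUn s)
    rw [← real_inner_self_eq_norm_sq, hU'U' s, mul_one] at this
    exact this
  have a1 := arc_mono hg hG h0 h1 hρ1
  have a2 := arc_mono (g := fun s => -(inner ℝ (U s) (X (U s)) : ℝ))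
    (G := fun s => -(inner ℝ (U' s) (X (U s)) : ℝ)) (ρ := fun s => -ρ s) (c := -C)
    (fun s => (hg s).neg) (fun s => ((hG s).neg).congr_deriv (by ring)) h0 h1
    (fun s => neg_le_neg (hρ2 s))
  have hU00 : U 0 = u := by rw [hU]; simp
  have hU'00 : U' 0 = e := by rw [hU']; simp
  have hsup : supp K (U θ) = inner ℝ (U θ) (X (U θ)) := (h.Xsup _ (hU0 θ)).symm
  have hexp : (inner ℝ (U θ) (X u) : ℝ) = cos θ * inner ℝ u (X u) + sin θ * inner ℝ e (X u) := by
    simp only [hU, inner_add_left, inner_smul_left, conj_trivial]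
  simp only [hU00, hU'00] at a1 a2
  have hgoal : c * (1 - cos θ) ≤ supp K (U θ) - inner ℝ (U θ) (X u) ∧
    supp K (U θ) - inner ℝ (U θ) (X u) ≤ C * (1 - cos θ) := by
    rw [hsup, hexp]
    constructor
    · linarith
    · linarith
  exact hgoal

/-- Two-sided bound for the defect of the support function. -/
theorem defect (h : Dat K δ lam X t) : ∃ c C : ℝ, 0 < c ∧ 0 < C ∧ ∀ u v : E n, ‖u‖ = 1 → ‖v‖ = 1 →
    c * (1 - inner ℝ u v) ≤ supp K v - inner ℝ v (X u) ∧
    supp K v - inner ℝ v (X u) ≤ C * (1 - inner ℝ u v) := by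
  have hDC := datC h
  obtain ⟨-, -, -, c, hc0, hc⟩ := pos_all h
  -- upper bound of the derivative
  obtain ⟨C, hC⟩ : ∃ C : ℝ, ∀ u z : E n, ‖u‖ = 1 → inner ℝ z (fderiv ℝ X u z) ≤ C * ‖z‖ ^ 2 := by
    have hcont : ContinuousOn (fun u => ‖fderiv ℝ X u‖) (sphere (0 : E n) 1) := by
      refine (Pool.Agent.Helper82.MI.fderiv_cont hDC).norm.mono ?_
      intro u hu h0
      rw [mem_singleton_iff] at h0
      rw [h0, mem_sphere_zero_iff_norm, norm_zero] at hu
      exact zero_ne_one hu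
    obtain ⟨C, hC⟩ := (isCompact_sphere (0 : E n) 1).bddAbove_image hcont
    refine ⟨C, fun u z hu => ?_⟩
    have h1 : ‖fderiv ℝ X u‖ ≤ C := hC ⟨u, by simpa using hu, rfl⟩
    have h2 : (inner ℝ z (fderiv ℝ X u z) : ℝ) ≤ ‖z‖ * ‖fderiv ℝ X u z‖ := real_inner_le_norm _ _
    have h3 : ‖fderiv ℝ X u z‖ ≤ ‖fderiv ℝ X u‖ * ‖z‖ := (fderiv ℝ X u).le_opNorm z
    have h4 : ‖z‖ * ‖fderiv ℝ X u z‖ ≤ ‖z‖ * (C * ‖z‖) :=
      mul_le_mul_of_nonneg_left (h3.trans (mul_le_mul_of_nonneg_right h1 (norm_nonneg _)))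
        (norm_nonneg _)
    calc _ ≤ _ := h2
      _ ≤ _ := h4
      _ = _ := by ring
  -- a ball in `K` and a ball around `K`
  obtain ⟨x, hx⟩ := h.cs.cb.int
  obtain ⟨ε, hε, hxε⟩ := Metric.mem_nhds_iff.1 (mem_interior_iff_mem_nhds.1 hx)
  obtain ⟨D, hD⟩ := h.cs.cb.comp.isBounded.subset_closedBall (0 : E n)
  have hw1 : ∀ u : E n, ‖u‖ = 1 → ε ≤ supp K u + supp K (-u) := by
    intro u hu
    have hm : x + (ε / 2) • u ∈ K := by
      apply hxε
      rw [mem_ball_iff_norm, add_sub_cancel_left, norm_smul, hu, Real.norm_eq_abs,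
        abs_of_pos (by positivity)]
      linarith
    have hm' : x - (ε / 2) • u ∈ K := by
      apply hxε
      rw [mem_ball_iff_norm, sub_sub_cancel_left, norm_neg, norm_smul, hu, Real.norm_eq_abs,
        abs_of_pos (by positivity)]
      linarith
    have e1 := le_supp h.cs.cb.comp hm u
    have e2 := le_supp h.cs.cb.comp hm' (-u)
    have huu : (inner ℝ u u : ℝ) = 1 := by rw [real_inner_self_eq_norm_sq, hu]; norm_num
    rw [inner_add_right, inner_smul_right, huu] at e1
    rw [inner_neg_left, inner_sub_right, inner_smul_right, huu] at e2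
    linarith
  have hw2 : ∀ u : E n, ‖u‖ = 1 → supp K u ≤ D := by
    intro u hu
    have hu0 : u ≠ 0 := by
      intro h0
      rw [h0, norm_zero] at hu
      exact zero_ne_one hu
    rw [← h.Xsup u hu0]
    have h1 := hD (h.Xmem u hu0)
    rw [mem_closedBall_zero_iff] at h1
    calc (inner ℝ u (X u) : ℝ) ≤ ‖u‖ * ‖X u‖ := real_inner_le_norm _ _
      _ = ‖X u‖ := by rw [hu, one_mul]
      _ ≤ D := h1
  refine ⟨min c (ε / 2), max (max C D) 1, lt_min hc0 (by positivity),
    lt_max_of_lt_right one_pos, ?_⟩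
  intro u v hu hv
  have hu0 : u ≠ 0 := by
    intro h0
    rw [h0, norm_zero] at hu
    exact zero_ne_one hu
  set θ := arccos (inner ℝ u v) with hθ
  have hle : |(inner ℝ u v : ℝ)| ≤ 1 := by
    have := abs_real_inner_le_norm u v
    rwa [hu, hv, one_mul] at this
  obtain ⟨hle1, hle2⟩ := abs_le.1 hle
  have hcos : cos θ = inner ℝ u v := cos_arccos hle1 hle2
  have hsin : sin θ = √(1 - (inner ℝ u v) ^ 2) := sin_arccos _
  have huu : (inner ℝ u u : ℝ) = 1 := by rw [real_inner_self_eq_norm_sq, hu]; norm_num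
  have hvv : (inner ℝ v v : ℝ) = 1 := by rw [real_inner_self_eq_norm_sq, hv]; norm_num
  set w : E n := v - (inner ℝ u v : ℝ) • u with hw
  have hww : ‖w‖ ^ 2 = 1 - (inner ℝ u v) ^ 2 := by
    rw [← real_inner_self_eq_norm_sq, hw]
    simp only [inner_sub_left, inner_sub_right, inner_smul_left, inner_smul_right, huu, hvv,
      conj_trivial, real_inner_comm v u]
    rw [real_inner_comm u v]
    ring
  have hsw : sin θ = ‖w‖ := by
    rw [hsin, ← hww, Real.sqrt_sq (norm_nonneg _)]
  have hone : 0 ≤ 1 - (inner ℝ u v : ℝ) := by linarith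
  by_cases hw0 : w = 0
  · -- `v = ± u`
    have h1 : (inner ℝ u v : ℝ) ^ 2 = 1 := by
      have := hww
      rw [hw0, norm_zero] at this
      linarith
    have h2 : v = (inner ℝ u v : ℝ) • u := sub_eq_zero.1 (by rw [← hw]; exact hw0)
    rcases sq_eq_one_iff_of_side h1 with h3 | h3
    · rw [h3, one_smul] at h2
      rw [h3, h2, h.Xsup u hu0]
      simp
    · rw [h3, neg_one_smul] at h2
      rw [h3, h2, inner_neg_left, h.Xsup u hu0]
      have e1 := hw1 u hu
      have e2 := hw2 u hu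
      have e3 := hw2 (-u) (by rw [norm_neg]; exact hu)
      have e4 : min c (ε / 2) ≤ ε / 2 := min_le_right _ _
      have e5 : D ≤ max (max C D) 1 := (le_max_right _ _).trans (le_max_left _ _)
      constructor
      · linarith
      · linarith
  · have hwn : 0 < ‖w‖ := norm_pos_iff.2 hw0
    set e : E n := ‖w‖⁻¹ • w with he
    have hen : ‖e‖ = 1 := by
      rw [he, norm_smul, norm_inv, norm_norm, inv_mul_cancel₀ hwn.ne']
    have huw : (inner ℝ u w : ℝ) = 0 := by
      rw [hw, inner_sub_right, inner_smul_right, huu]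
      ring
    have hue : (inner ℝ u e : ℝ) = 0 := by rw [he, inner_smul_right, huw, mul_zero]
    have hve : cos θ • u + sin θ • e = v := by
      rw [hcos, hsw, he, smul_smul, mul_inv_cancel₀ hwn.ne', one_smul, hw]
      abel
    have h1 := arc h (c := c) (C := C) hc hC hu hen hue (arccos_nonneg _) (arccos_le_pi _) (θ := θ)
    rw [hve, hcos] at h1
    have e1 : min c (ε / 2) * (1 - inner ℝ u v) ≤ c * (1 - inner ℝ u v) :=
      mul_le_mul_of_nonneg_right (min_le_left _ _) hone
    have e2 : C * (1 - inner ℝ u v) ≤ max (max C D) 1 * (1 - inner ℝ u v) :=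
      mul_le_mul_of_nonneg_right ((le_max_left _ _).trans (le_max_left _ _)) hone
    exact ⟨e1.trans h1.1, h1.2.trans e2⟩

/-- (BC) Inner and outer tangent balls. -/
theorem balls (h : Dat K δ lam X t) : ∃ r R : ℝ, 0 < r ∧ r ≤ R ∧ ∀ u : E n, ‖u‖ = 1 →
    closedBall (X u - r • u) r ⊆ K ∧ K ⊆ closedBall (X u - R • u) R := by
  obtain ⟨c, C, hc0, hC0, hcC⟩ := defect h
  have hne : K.Nonempty := h.cs.cb.int.mono interior_subset
  refine ⟨c, max c C, hc0, le_max_left _ _, fun u hu => ⟨?_, ?_⟩⟩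
  · intro x hx
    apply mem_of_supp h.cs.cb.conv h.cs.cb.comp _ hne
    have key : ∀ v : E n, ‖v‖ = 1 → inner ℝ v x ≤ supp K v := by
      intro v hv
      have h1 := (hcC u v hu hv).1
      have h2 : (inner ℝ v (x - (X u - c • u)) : ℝ) ≤ c := by
        calc (inner ℝ v (x - (X u - c • u)) : ℝ) ≤ ‖v‖ * ‖x - (X u - c • u)‖ :=
              real_inner_le_norm _ _
          _ = ‖x - (X u - c • u)‖ := by rw [hv, one_mul]
          _ ≤ c := by rw [← mem_closedBall_iff_norm]; exact hx
      rw [inner_sub_right, inner_sub_right, inner_smul_right, real_inner_comm u v] at h2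
      linarith
    intro v
    by_cases hv : v = 0
    · rw [hv, inner_zero_left]
      obtain ⟨y, hy⟩ := hne
      have := le_supp h.cs.cb.comp hy 0
      rwa [inner_zero_left] at this
    · have hvn : 0 < ‖v‖ := norm_pos_iff.2 hv
      have h1 := key (‖v‖⁻¹ • v) (by
        rw [norm_smul, norm_inv, norm_norm, inv_mul_cancel₀ hvn.ne'])
      have h2 := supp_smul h.cs.cb.comp hne (inv_nonneg.2 hvn.le) v
      rw [h2, inner_smul_left, conj_trivial] at h1
      exact le_of_mul_le_mul_left h1 (inv_pos.2 hvn)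
  · intro x hx
    set R := max c C with hR
    have hR0 : 0 < R := lt_max_of_lt_left hc0
    rw [mem_closedBall_iff_norm]
    by_cases h0 : x - (X u - R • u) = 0
    · rw [h0, norm_zero]
      exact hR0.le
    · have hn0 : 0 < ‖x - (X u - R • u)‖ := norm_pos_iff.2 h0
      set p := x - (X u - R • u) with hp
      set v : E n := ‖p‖⁻¹ • p with hv
      have hvn : ‖v‖ = 1 := by rw [hv, norm_smul, norm_inv, norm_norm, inv_mul_cancel₀ hn0.ne']
      have h1 : (inner ℝ v p : ℝ) = ‖p‖ := by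
        rw [hv, inner_smul_left, conj_trivial, real_inner_self_eq_norm_sq]
        field_simp
      have h2 := (hcC u v hu hvn).2
      have h3 := le_supp h.cs.cb.comp hx v
      have h4 : C * (1 - inner ℝ u v) ≤ R * (1 - inner ℝ u v) := by
        apply mul_le_mul_of_nonneg_right (le_max_right _ _)
        have := real_inner_le_norm u v
        rw [hu, hvn] at this
        linarith
      rw [← h1, hp, inner_sub_right, inner_sub_right, inner_smul_right, real_inner_comm u v]
      linarith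

end Pool.Agent.Helper82.FU
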