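import Mathlib

/-!
# Volumes of slabs (project MP_a2630c_FU)
-/

open MeasureTheory Set Metric Filter Topology
open scoped RealInnerProductSpace ENNReal

namespace Pool.Agent.Helper82.FU

variable {V : Type*} [NormedAddCommGroup V] [InnerProductSpace ℝ V] [FiniteDimensional ℝ V]
  [MeasurableSpace V] [BorelSpace V]

/-- The slab of half width `β` (in units of `v`) around the hyperplane `<v,x> = t`. -/
def Sl (v : V) (t β : ℝ) : Set V := {x | |inner ℝ v x - t| ≤ β}

omit [FiniteDimensional ℝ V] [MeasurableSpace V] [BorelSpace V] in
theorem Sl_closed (v : V) (t β : ℝ) : IsClosed (Sl v t β) :=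
  isClosed_le (by fun_prop) continuous_const

theorem lintegral_slab {B : Set V} (hB : MeasurableSet B) (v : V) {β : ℝ} (_hβ : 0 ≤ β) :
    ∫⁻ t : ℝ, volume (B ∩ Sl v t β) = ENNReal.ofReal (2 * β) * volume B := by
  set P : Set (V × ℝ) := (Prod.fst ⁻¹' B) ∩ {p | |inner ℝ v p.1 - p.2| ≤ β} with hP
  have hPm : MeasurableSet P := by
    refine (measurable_fst hB).inter (IsClosed.measurableSet ?_)
    exact isClosed_le (by fun_prop) continuous_const
  have h1 : ((volume : Measure V).prod (volume : Measure ℝ)) P =
      ∫⁻ t : ℝ, volume ((fun x => (x, t)) ⁻¹' P) := Measure.prod_apply_symm hPm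
  have h2 : ((volume : Measure V).prod (volume : Measure ℝ)) P =
      ∫⁻ x : V, volume (Prod.mk x ⁻¹' P) := Measure.prod_apply hPm
  have h3 : ∀ t : ℝ, (fun x => (x, t)) ⁻¹' P = B ∩ Sl v t β := by
    intro t
    ext x
    simp [hP, Sl]
  have h4 : ∀ x : V, volume (Prod.mk x ⁻¹' P) = B.indicator (fun _ => ENNReal.ofReal (2 * β)) x := by
    intro x
    by_cases hx : x ∈ B
    · have : Prod.mk x ⁻¹' P = closedBall (inner ℝ v x) β := by
        ext t
        simp only [hP, mem_preimage, mem_inter_iff, hx, true_and, mem_ofPred_eq, mem_closedBall,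
          Real.dist_eq]
        rw [abs_sub_comm]
      rw [this, Real.volume_closedBall, indicator_of_mem hx]
    · have : Prod.mk x ⁻¹' P = ∅ := by
        ext t
        simp [hP, hx]
      rw [this, measure_empty, indicator_of_notMem hx]
  simp only [h3] at h1
  simp only [h4] at h2
  rw [← h1, h2, lintegral_indicator hB, lintegral_const, Measure.restrict_apply_univ]

/-- Lower bound for the volume of a slab in a ball. -/
theorem slab_ball_lower (v y : V) {R β : ℝ} (hR : 0 < R) (hβ : 0 < β) :
    ENNReal.ofReal (2 * β) * volume (ball (0 : V) (R / 2)) ≤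
      ENNReal.ofReal (‖v‖ * R + 2 * β) * volume (ball y R ∩ {x | |inner ℝ v (x - y)| ≤ β}) := by
  set S : Set V := ball y R ∩ {x | |inner ℝ v (x - y)| ≤ β} with hS
  have hSm : MeasurableSet S :=
    measurableSet_ball.inter (isClosed_le (by fun_prop) continuous_const).measurableSet
  have key : ∀ t : ℝ, volume (ball (0 : V) (R / 2) ∩ Sl v t β) ≤
      (closedBall (0 : ℝ) (‖v‖ * R / 2 + β)).indicator (fun _ => volume S) t := by
    intro t
    by_cases ht : t ∈ closedBall (0 : ℝ) (‖v‖ * R / 2 + β)
    · rw [indicator_of_mem ht]
      -- translation vector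
      obtain ⟨z, hz1, hz2⟩ : ∃ z : V, ‖z‖ ≤ R / 2 ∧ ∀ x ∈ ball (0 : V) (R / 2) ∩ Sl v t β,
          |(inner ℝ v (x + z) : ℝ)| ≤ β := by
        by_cases hv : v = 0
        · refine ⟨0, by rw [norm_zero]; positivity, fun x hx => ?_⟩
          rw [hv, inner_zero_left, abs_zero]
          exact hβ.le
        · have hvn : 0 < ‖v‖ := norm_pos_iff.2 hv
          have hvv : (inner ℝ v v : ℝ) = ‖v‖ ^ 2 := real_inner_self_eq_norm_sq v
          have hb : ∀ x ∈ ball (0 : V) (R / 2), |(inner ℝ v x : ℝ)| ≤ ‖v‖ * (R / 2) := by
            intro x hx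
            refine (abs_real_inner_le_norm v x).trans ?_
            rw [mem_ball_zero_iff] at hx
            exact mul_le_mul_of_nonneg_left hx.le hvn.le
          rcases le_total |t| (‖v‖ * (R / 2)) with h1 | h1
          · refine ⟨(-(t / ‖v‖ ^ 2)) • v, ?_, fun x hx => ?_⟩
            · rw [norm_smul, Real.norm_eq_abs, abs_neg, abs_div, abs_of_pos (by positivity :
                (0 : ℝ) < ‖v‖ ^ 2), div_mul_eq_mul_div, div_le_iff₀ (by positivity)]
              nlinarith
            · rw [inner_add_right, inner_smul_right, hvv]
              have : (inner ℝ v x : ℝ) + -(t / ‖v‖ ^ 2) * ‖v‖ ^ 2 = inner ℝ v x - t := by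
                field_simp
                ring
              rw [this]
              exact hx.2
          · rcases le_total 0 t with h2 | h2
            · rw [abs_of_nonneg h2] at h1
              refine ⟨(-((R / 2) / ‖v‖)) • v, ?_, fun x hx => ?_⟩
              · rw [norm_smul, Real.norm_eq_abs, abs_neg, abs_of_pos (by positivity),
                  div_mul_cancel₀ _ hvn.ne']
              · rw [inner_add_right, inner_smul_right, hvv]
                have e1 : (inner ℝ v x : ℝ) + -((R / 2) / ‖v‖) * ‖v‖ ^ 2 =
                    inner ℝ v x - ‖v‖ * (R / 2) := by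
                  field_simp
                  ring
                rw [e1, abs_le]
                have e2 := abs_le.1 (hb x hx.1)
                have e3 : |(inner ℝ v x : ℝ) - t| ≤ β := hx.2
                have e4 := abs_le.1 e3
                constructor
                · linarith [e4.1]
                · linarith [e2.2]
            · rw [abs_of_nonpos h2] at h1
              refine ⟨((R / 2) / ‖v‖) • v, ?_, fun x hx => ?_⟩
              · rw [norm_smul, Real.norm_eq_abs, abs_of_pos (by positivity),
                  div_mul_cancel₀ _ hvn.ne']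
              · rw [inner_add_right, inner_smul_right, hvv]
                have e1 : (inner ℝ v x : ℝ) + ((R / 2) / ‖v‖) * ‖v‖ ^ 2 =
                    inner ℝ v x + ‖v‖ * (R / 2) := by
                  field_simp
                rw [e1, abs_le]
                have e2 := abs_le.1 (hb x hx.1)
                have e3 : |(inner ℝ v x : ℝ) - t| ≤ β := hx.2
                have e4 := abs_le.1 e3
                constructor
                · linarith [e2.1]
                · linarith [e4.2]
      calc volume (ball (0 : V) (R / 2) ∩ Sl v t β)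
          ≤ volume ((fun x => x + (z + y)) ⁻¹' S) := by
            apply measure_mono
            intro x hx
            have h3 := hz2 x hx
            have h4 : ‖x‖ < R / 2 := by simpa using hx.1
            refine ⟨?_, ?_⟩
            · rw [mem_ball_iff_norm]
              have : x + (z + y) - y = x + z := by abel
              rw [this]
              calc ‖x + z‖ ≤ ‖x‖ + ‖z‖ := norm_add_le _ _
                _ < R / 2 + R / 2 := by linarith
                _ = R := by ring
            · show |(inner ℝ v (x + (z + y) - y) : ℝ)| ≤ β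
              have : x + (z + y) - y = x + z := by abel
              rw [this]
              exact h3
        _ = volume S := measure_preimage_add_right volume (z + y) S
    · rw [indicator_of_notMem ht, nonpos_iff_eq_zero, ← measure_empty (μ := (volume : Measure V))]
      congr 1
      rw [eq_empty_iff_forall_notMem]
      intro x hx
      apply ht
      rw [mem_closedBall, dist_zero_right, Real.norm_eq_abs]
      have h1 : |(inner ℝ v x : ℝ)| ≤ ‖v‖ * (R / 2) := by
        refine (abs_real_inner_le_norm v x).trans ?_
        have := hx.1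
        rw [mem_ball_zero_iff] at this
        exact mul_le_mul_of_nonneg_left this.le (norm_nonneg v)
      have h2 : |(inner ℝ v x : ℝ) - t| ≤ β := hx.2
      have h3 : |t| ≤ |(inner ℝ v x : ℝ)| + |(inner ℝ v x : ℝ) - t| := by
        have := abs_sub (inner ℝ v x : ℝ) (inner ℝ v x - t)
        simpa using this
      linarith
  have h1 := lintegral_slab (measurableSet_ball (x := (0 : V)) (ε := R / 2)) v hβ.le
  rw [← h1]
  refine (lintegral_mono key).trans ?_
  rw [lintegral_indicator isClosed_closedBall.measurableSet, lintegral_const,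
    Measure.restrict_apply_univ, Real.volume_closedBall, mul_comm]
  apply le_of_eq
  congr 2
  ring

/-- Upper bound for the volume of a slab of a bounded set. -/
theorem slab_upper (v : V) (τ : ℝ) {K : Set V} {D M : ℝ} (hK : K ⊆ closedBall 0 D) (hD : 0 < D)
    (hM : 0 ≤ M) :
    ENNReal.ofReal (2 * D * ‖v‖) * volume (K ∩ Sl v τ M) ≤
      ENNReal.ofReal (2 * M) * volume (closedBall (0 : V) (2 * D)) := by
  by_cases hv : v = 0
  · rw [hv, norm_zero, mul_zero, ENNReal.ofReal_zero, zero_mul]
    exact zero_le
  have hvn : 0 < ‖v‖ := norm_pos_iff.2 hv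
  have hvv : (inner ℝ v v : ℝ) = ‖v‖ ^ 2 := real_inner_self_eq_norm_sq v
  rw [← lintegral_slab (isClosed_closedBall (x := (0 : V)) (ε := 2 * D)).measurableSet v hM]
  have key : ∀ t : ℝ, (closedBall τ (‖v‖ * D)).indicator (fun _ => volume (K ∩ Sl v τ M)) t ≤
      volume (closedBall (0 : V) (2 * D) ∩ Sl v t M) := by
    intro t
    by_cases ht : t ∈ closedBall τ (‖v‖ * D)
    · rw [indicator_of_mem ht]
      have ht' : |t - τ| ≤ ‖v‖ * D := by rwa [mem_closedBall, Real.dist_eq] at ht
      calc volume (K ∩ Sl v τ M)
          ≤ volume ((fun x => x + ((t - τ) / ‖v‖ ^ 2) • v) ⁻¹'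
              (closedBall (0 : V) (2 * D) ∩ Sl v t M)) := by
            apply measure_mono
            intro x hx
            have h1 : ‖x‖ ≤ D := by simpa using hK hx.1
            have h2 : |(inner ℝ v x : ℝ) - τ| ≤ M := hx.2
            have h3 : ‖((t - τ) / ‖v‖ ^ 2) • v‖ ≤ D := by
              rw [norm_smul, Real.norm_eq_abs, abs_div, abs_of_pos (by positivity :
                (0 : ℝ) < ‖v‖ ^ 2), div_mul_eq_mul_div, div_le_iff₀ (by positivity)]
              nlinarith
            refine ⟨?_, ?_⟩
            · rw [mem_closedBall_zero_iff]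
              calc ‖x + ((t - τ) / ‖v‖ ^ 2) • v‖ ≤ ‖x‖ + ‖((t - τ) / ‖v‖ ^ 2) • v‖ :=
                    norm_add_le _ _
                _ ≤ D + D := add_le_add h1 h3
                _ = 2 * D := by ring
            · show |(inner ℝ v (x + ((t - τ) / ‖v‖ ^ 2) • v) : ℝ) - t| ≤ M
              rw [inner_add_right, inner_smul_right, hvv]
              have : (inner ℝ v x : ℝ) + (t - τ) / ‖v‖ ^ 2 * ‖v‖ ^ 2 - t = inner ℝ v x - τ := by
                field_simp
                ring
              rw [this]
              exact h2
        _ = _ := measure_preimage_add_right volume _ _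
    · rw [indicator_of_notMem ht]
      exact zero_le
  refine le_trans (le_of_eq ?_) (lintegral_mono key)
  rw [lintegral_indicator isClosed_closedBall.measurableSet, lintegral_const,
    Measure.restrict_apply_univ, Real.volume_closedBall, mul_comm]
  congr 2
  ring

end Pool.Agent.Helper82.FU
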